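import Pool.Agent.H25.NS.Final

/-!
Blocks with selectors: the word function over a product alphabet whose constraints also contain
the values of selector variables.
-/

namespace Pool.Agent.H25.NA

set_option linter.unusedSectionVars false

open Finset
open H13 (cnt Neg Yp mem_Neg mem_Yp)
open Pool.Agent.H25.NM (nc)
open Pool.Agent.H25.NS

section

variable {M d m p P D V : ℕ}

/-- the ground set of a block -/
abbrev XX (M d D : ℕ) := Fin M × (Fin d → Fin D)

/-- the labels of the blocks -/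
abbrev Lab (d m p P : ℕ) := (Fin d → Fin p) × (Fin m → Fin P)

/-- the whole ground set -/
abbrev ZZ (M d m p P D : ℕ) := Fin M × ((Fin d → Fin (p * D)) × (Fin m → Fin P))

/-- Labels and values. -/
def splitE : Lab d m p P × XX M d D ≃ ZZ M d m p P D where
  toFun z := (z.2.1, (fun κ => finProdFinEquiv (z.1.1 κ, z.2.2 κ), z.1.2))
  invFun z := ((fun κ => (finProdFinEquiv.symm (z.2.1 κ)).1, z.2.2),
    (z.1, fun κ => (finProdFinEquiv.symm (z.2.1 κ)).2))
  left_inv z := by
    simp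
  right_inv z := by
    refine Prod.ext rfl (Prod.ext ?_ rfl)
    funext κ
    exact finProdFinEquiv.apply_symm_apply (z.2.1 κ)

/-- The embedding of a block. -/
def blockE {J : ℕ} (e : Fin J ≃ Lab d m p P) (j : Fin J) : XX M d D ↪ ZZ M d m p P D where
  toFun x := splitE (e j, x)
  inj' _ _ h := (Prod.mk.inj (splitE.injective h)).2

/-- Families of negative inputs of the blocks are negative inputs of the whole. -/
def gatherE {J g ρ q : ℕ} (e : Fin J ≃ Lab d m p P) :
    (Fin J → Fin g → Fin ρ → XX M d D → Fin q) ≃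
    (Fin g → Fin ρ → ZZ M d m p P D → Fin q) where
  toFun ω i r z := ω (e.symm (splitE.symm z).1) i r (splitE.symm z).2
  invFun W j i r x := W i r (splitE (e j, x))
  left_inv ω := by
    funext j i r x
    simp
  right_inv W := by
    funext i r z
    simp

theorem neg_gather {J g ρ q : ℕ} (e : Fin J ≃ Lab d m p P)
    (ω : Fin J → Fin g → Fin ρ → XX M d D → Fin q) :
    pre (blockE e) (fun w : Fin g → Fin ρ → XX M d D → Fin q => Neg w) ω J =
      Neg (gatherE e ω) := by
  ext z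
  rw [mem_pre, mem_Neg]
  constructor
  · rintro ⟨j, _, hz⟩
    rw [Finset.mem_map] at hz
    obtain ⟨x, hx, rfl⟩ := hz
    obtain ⟨i, r, h⟩ := (mem_Neg _ _).1 hx
    refine ⟨i, r, ?_⟩
    show (ω (e.symm (splitE.symm (splitE (e j, x))).1) i r
      (splitE.symm (splitE (e j, x))).2).val = 0
    simpa using h
  · rintro ⟨i, r, h⟩
    refine ⟨e.symm (splitE.symm z).1, Fin.is_lt _, ?_⟩
    rw [Finset.mem_map]
    refine ⟨(splitE.symm z).2, (mem_Neg _ _).2 ⟨i, r, h⟩, ?_⟩
    show splitE (e (e.symm (splitE.symm z).1), (splitE.symm z).2) = z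
    simp

/-- The input of a word and a choice of the selectors. -/
def Yt (H : Fin M → Fin d → Fin V) (α : Fin d → Fin V → Fin (p * D)) (c : Fin m → Fin P) :
    Finset (ZZ M d m p P D) :=
  univ.image fun i => (i, (fun κ => α κ (H i κ), c))

theorem mem_Yt {H : Fin M → Fin d → Fin V} {α : Fin d → Fin V → Fin (p * D)}
    {c : Fin m → Fin P} {z : ZZ M d m p P D} :
    z ∈ Yt H α c ↔ (∀ κ, z.2.1 κ = α κ (H z.1 κ)) ∧ z.2.2 = c := by
  unfold Yt
  rw [Finset.mem_image]
  constructor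
  · rintro ⟨i, _, rfl⟩
    exact ⟨fun κ => rfl, rfl⟩
  · rintro ⟨h1, h2⟩
    refine ⟨z.1, Finset.mem_univ _, ?_⟩
    refine Prod.ext rfl (Prod.ext ?_ h2.symm)
    funext κ
    exact (h1 κ).symm

theorem card_Yt (H : Fin M → Fin d → Fin V) (α : Fin d → Fin V → Fin (p * D))
    (c : Fin m → Fin P) : (Yt H α c).card = M := by
  unfold Yt
  rw [Finset.card_image_of_injective]
  · simp
  · intro i i' h
    exact (Prod.mk.inj h).1

/-- The planted input of a block is the input of a word. -/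
theorem map_Yp {J : ℕ} (e : Fin J ≃ Lab d m p P) (H : Fin M → Fin d → Fin V)
    (α : Fin d → Fin V → Fin D) (j : Fin J) :
    ∃ (α' : Fin d → Fin V → Fin (p * D)) (c : Fin m → Fin P),
      (Yp H α).map (blockE e j) = Yt H α' c := by
  refine ⟨fun κ v => finProdFinEquiv ((e j).1 κ, α κ v), (e j).2, ?_⟩
  ext z
  rw [Finset.mem_map, mem_Yt]
  constructor
  · rintro ⟨x, hx, rfl⟩
    rw [mem_Yp] at hx
    refine ⟨fun κ => ?_, rfl⟩
    show finProdFinEquiv ((e j).1 κ, x.2 κ) = _
    rw [hx κ]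
    rfl
  · rintro ⟨hz1, hz2⟩
    refine ⟨(z.1, fun κ => α κ (H z.1 κ)), ?_, ?_⟩
    · rw [mem_Yp]
      intro κ
      rfl
    · show (z.1, ((fun κ => finProdFinEquiv ((e j).1 κ, α κ (H z.1 κ))), (e j).2)) = z
      refine Prod.ext rfl (Prod.ext ?_ hz2.symm)
      funext κ
      exact (hz1 κ).symm

/-- the domains of the variables -/
abbrev dom (d m p P D V : ℕ) : (Fin d × Fin V) ⊕ Fin m → ℕ :=
  Sum.elim (fun _ => p * D) (fun _ => P)

/-- the variables and values of a constraint -/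
def scope (H : Fin M → Fin d → Fin V) (z : ZZ M d m p P D) :
    Finset (Σ i, Fin (dom d m p P D V i)) :=
  (univ.image fun κ : Fin d => (⟨Sum.inl (κ, H z.1 κ), z.2.1 κ⟩ :
    Σ i, Fin (dom d m p P D V i))) ∪
  (univ.image fun σ : Fin m => (⟨Sum.inr σ, z.2.2 σ⟩ : Σ i, Fin (dom d m p P D V i)))

theorem card_scope (H : Fin M → Fin d → Fin V) (z : ZZ M d m p P D) :
    (scope H z).card ≤ d + m := by
  unfold scope
  refine (Finset.card_union_le _ _).trans (Nat.add_le_add ?_ ?_)
  · refine Finset.card_image_le.trans ?_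
    simp
  · refine Finset.card_image_le.trans ?_
    simp

theorem scope_forall {H : Fin M → Fin d → Fin V} {z : ZZ M d m p P D}
    {a : ∀ i, Fin (dom d m p P D V i)} :
    (∀ q ∈ scope H z, a q.1 = q.2) ↔
      (∀ κ, a (Sum.inl (κ, H z.1 κ)) = z.2.1 κ) ∧ (∀ σ, a (Sum.inr σ) = z.2.2 σ) := by
  unfold scope
  constructor
  · intro h
    refine ⟨fun κ => ?_, fun σ => ?_⟩
    · exact h ⟨Sum.inl (κ, H z.1 κ), z.2.1 κ⟩ (Finset.mem_union_left _
        (Finset.mem_image_of_mem _ (Finset.mem_univ κ)))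
    · exact h ⟨Sum.inr σ, z.2.2 σ⟩ (Finset.mem_union_right _
        (Finset.mem_image_of_mem _ (Finset.mem_univ σ)))
  · rintro ⟨h1, h2⟩ q hq
    rw [Finset.mem_union, Finset.mem_image, Finset.mem_image] at hq
    rcases hq with ⟨κ, _, rfl⟩ | ⟨σ, _, rfl⟩
    · exact h1 κ
    · exact h2 σ

theorem scope_injective {H : Fin M → Fin d → Fin V} (hinj : Function.Injective H) :
    Function.Injective (scope (m := m) (p := p) (P := P) (D := D) H) := by
  intro z z' h
  have hκ : ∀ κ, H z.1 κ = H z'.1 κ ∧ z.2.1 κ = z'.2.1 κ := by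
    intro κ
    have h1 : (⟨Sum.inl (κ, H z.1 κ), z.2.1 κ⟩ : Σ i, Fin (dom d m p P D V i)) ∈ scope H z :=
      Finset.mem_union_left _ (Finset.mem_image_of_mem _ (Finset.mem_univ κ))
    rw [h] at h1
    unfold scope at h1
    rw [Finset.mem_union, Finset.mem_image, Finset.mem_image] at h1
    rcases h1 with ⟨κ', _, h2⟩ | ⟨σ, _, h2⟩
    · rw [Sigma.mk.injEq] at h2
      obtain ⟨h3, h4⟩ := h2
      have h5 := Sum.inl.inj h3
      have h6 := (Prod.mk.inj h5).1
      subst h6
      exact ⟨((Prod.mk.inj h5).2).symm, (eq_of_heq h4).symm⟩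
    · rw [Sigma.mk.injEq] at h2
      exact absurd h2.1 (by simp)
  have hσ : ∀ σ, z.2.2 σ = z'.2.2 σ := by
    intro σ
    have h1 : (⟨Sum.inr σ, z.2.2 σ⟩ : Σ i, Fin (dom d m p P D V i)) ∈ scope H z :=
      Finset.mem_union_right _ (Finset.mem_image_of_mem _ (Finset.mem_univ σ))
    rw [h] at h1
    unfold scope at h1
    rw [Finset.mem_union, Finset.mem_image, Finset.mem_image] at h1
    rcases h1 with ⟨κ', _, h2⟩ | ⟨σ', _, h2⟩
    · rw [Sigma.mk.injEq] at h2
      exact absurd h2.1 (by simp)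
    · rw [Sigma.mk.injEq] at h2
      obtain ⟨h3, h4⟩ := h2
      have h5 := Sum.inr.inj h3
      subst h5
      exact (eq_of_heq h4).symm
  refine Prod.ext (hinj (funext fun κ => (hκ κ).1)) (Prod.ext ?_ ?_)
  · exact funext fun κ => (hκ κ).2
  · exact funext hσ

/-- The satisfying words of an input. -/
theorem exists_word_iff {H : Fin M → Fin d → Fin V} {y : Finset (ZZ M d m p P D)} :
    (∃ a : ∀ i, Fin (dom d m p P D V i), ∀ z, (∀ q ∈ scope H z, a q.1 = q.2) → z ∈ y) ↔
      ∃ (α : Fin d → Fin V → Fin (p * D)) (c : Fin m → Fin P), Yt H α c ⊆ y := by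
  constructor
  · rintro ⟨a, ha⟩
    refine ⟨fun κ v => a (Sum.inl (κ, v)), fun σ => a (Sum.inr σ), fun z hz => ?_⟩
    rw [mem_Yt] at hz
    apply ha
    rw [scope_forall]
    refine ⟨fun κ => (hz.1 κ).symm, fun σ => ?_⟩
    rw [hz.2]
  · rintro ⟨α, c, h⟩
    obtain ⟨a, ha1, ha2⟩ : ∃ a : ∀ i, Fin (dom d m p P D V i),
        (∀ x, a (Sum.inl x) = α x.1 x.2) ∧ (∀ σ, a (Sum.inr σ) = c σ) :=
      ⟨fun i => match i with
        | Sum.inl x => α x.1 x.2
        | Sum.inr σ => c σ, fun _ => rfl, fun _ => rfl⟩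
    refine ⟨a, fun z hz => h ?_⟩
    obtain ⟨h1, h2⟩ := scope_forall.1 hz
    rw [mem_Yt]
    refine ⟨fun κ => ?_, funext fun σ => ?_⟩
    · rw [← h1 κ, ha1]
    · rw [← h2 σ, ha2]

end

end Pool.Agent.H25.NA
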