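import Pool.Agent.H14.NS.Enc
import Pool.Agent.H25.NA.Global

/-!
The lower bound with explicit parameters, with selectors.
-/

namespace Pool.Agent.H25.NA

set_option linter.unusedSectionVars false

open Finset
open H13 (cnt Neg Yp mem_Neg mem_Yp Clause Satisfiable blk Atom AppData)
open Pool.Agent.H25.NM (nc)
open Pool.Agent.H25.NS

theorem cnt_le_inst {α : Type} (i1 i2 : Fintype α) (p : α → Prop) (b : ℝ)
    (h : @cnt α i1 p ≤ b * (@Fintype.card α i1 : ℝ)) :
    @cnt α i2 p ≤ b * (@Fintype.card α i2 : ℝ) := by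
  have : i1 = i2 := Subsingleton.elim _ _
  subst this
  exact h

theorem apex_explicit {k d m V D p P M c' β a g ρ n s : ℕ} (hd : 3 ≤ d) (hdm : d + m ≤ k)
    (hβ : 3 ≤ β) (ha : a + 1 = β * (d - 1)) (hc2 : 2 ≤ c') (hV : 1 ≤ V) (hD : 1 ≤ D)
    (hN : a * (2 * c') ≤ β * (d * V))
    (hH : 12 ^ β * 3 ^ a * d ^ (d * β) * M ^ β * (2 * c') ≤ V ^ (β + 1))
    (hρ1 : 1 ≤ ρ) (hρ : 2 * c' < 2 ^ ρ) (hg : 1 ≤ g)
    (hR : (64 * ρ * (2 * (g * ρ))) ^ β ≤ D ^ a)
    (hG : (M * D ^ d + 1) ^ (2 * c') * 4 ^ c' ≤ 2 ^ g)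
    (hM : 2 * ((p * D) ^ (d * V) * P ^ m) ≤ 2 ^ M)
    (hn : d * V * (2 * (p * D) + 1) + m * (2 * P + 1) ≤ n)
    (he : ((p ^ d * P ^ m : ℕ) : ℝ) * (2 * (s * s + 1) * (1 / 4) ^ c') ≤ 1)
    {ι : Type} (T : Finset ι) (Mt : ι → Finset (Clause n k) → Prop)
    (hMt : ∀ t ∈ T, MonoSize s (Mt t))
    (hf : ∀ x y, (∀ t ∈ T, Mt t x ↔ Mt t y) → (Satisfiable x ↔ Satisfiable y)) :
    p ^ d * P ^ m ≤ 6 * T.card := by
  classical
  obtain ⟨H, hexp⟩ := H13.exists_expanding (K := d) (V := V) (M := M) (c := 2 * c') (β := β)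
    (a := a) hd (by omega) ha hV hN hH
  have hinj := H13.expanding_injective hd hβ ha (by omega) H hexp
  set q : ℕ := 2 * (g * ρ) with hq
  have hq0 : 0 < q := by
    have : 0 < g * ρ := Nat.mul_pos hg hρ1
    omega
  -- the whole ground set
  let Z := ZZ M d m p P D
  let X := XX M d D
  have hsum : ∑ i, (2 * dom d m p P D V i + 1) ≤ n := by
    refine le_trans (le_of_eq ?_) hn
    rw [Fintype.sum_sum_type]
    simp [dom]
  obtain ⟨G, hat, hG'⟩ := H14.NS.encode_gen (dom d m p P D V) (by omega : 3 ≤ k) hsum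
    (scope (m := m) (p := p) (P := P) (D := D) H) (scope_injective hinj)
    (fun z => (card_scope H z).trans hdm)
  have hHW : ∀ y : Finset Z, Satisfiable (G y) ↔
      ∃ (α : Fin d → Fin V → Fin (p * D)) (c : Fin m → Fin P), Yt H α c ⊆ y :=
    fun y => (hG' y).trans exists_word_iff
  -- the approximation on a block
  set Rr : ℝ := (4 * ρ : ℝ) * q with hRr
  have hρ' : (1 : ℝ) ≤ ρ := by exact_mod_cast hρ1
  have hq' : (1 : ℝ) ≤ q := by exact_mod_cast hq0
  have hR1 : 1 ≤ Rr := by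
    rw [hRr]
    nlinarith
  have hexpR : ∀ J : Finset (Fin M), J.card ≤ 2 * c' →
      (16 * Rr) ^ J.card ≤ (D : ℝ) ^ (blk H J).card := by
    intro J hJ
    have h1 := hexp J hJ
    have h2 : ((64 * ρ * q) ^ J.card) ^ β ≤ (D ^ (blk H J).card) ^ β := by
      calc ((64 * ρ * q) ^ J.card) ^ β = ((64 * ρ * q) ^ β) ^ J.card := by
            rw [← pow_mul, ← pow_mul, mul_comm J.card β]
        _ ≤ (D ^ a) ^ J.card := Nat.pow_le_pow_left hR _
        _ = D ^ (a * J.card) := by rw [← pow_mul]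
        _ ≤ D ^ (β * (blk H J).card) := Nat.pow_le_pow_right hD h1
        _ = (D ^ (blk H J).card) ^ β := by rw [← pow_mul, mul_comm β]
    have h3 : (64 * ρ * q) ^ J.card ≤ D ^ (blk H J).card :=
      (Nat.pow_le_pow_iff_left (by omega)).1 h2
    have h4 : (16 * Rr) ^ J.card = (((64 * ρ * q) ^ J.card : ℕ) : ℝ) := by
      rw [hRr]; push_cast; ring
    rw [h4]
    exact_mod_cast h3
  have hpos16 : ∀ S : Finset X, S.card ≤ 2 * c' →
      cnt (fun α : Fin d → Fin V → Fin D => S ⊆ Yp H α) * (16 * Rr) ^ S.card ≤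
        Fintype.card (Fin d → Fin V → Fin D) :=
    fun S hS => H13.pos_spread H (16 * Rr) (by linarith) hexpR S hS
  have hApp : AppData (fun w : Fin g → Fin ρ → X → Fin q => Neg w)
      (fun α : Fin d → Fin V → Fin D => Yp H α) c' Rr ((1 / 2) ^ g) :=
    { hc := by omega
      hR := hR1
      hδ := by positivity
      hcover := fun J hJ hsize hsp => H13.neg_cover hq0 hρ1 hρ J hJ hsize hsp
      hpos := fun S hS => by
        refine le_trans (mul_le_mul_of_nonneg_left ?_ (H13.cnt_nonneg _)) (hpos16 S hS)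
        exact pow_le_pow_left₀ (by linarith) (by linarith) _
      hneg := by
        have h1 := H13.card_small_sets (X := X) (2 * c')
        have h2 : Fintype.card X = M * D ^ d := by
          simp [X, XX]
        rw [h2] at h1
        have h3 : (univ.filter (fun T : Finset X => T.card ≤ 2 * c')).card * 4 ^ c' ≤ 2 ^ g :=
          (Nat.mul_le_mul_right _ h1).trans hG
        have h4 : ((univ.filter (fun T : Finset X => T.card ≤ 2 * c')).card : ℝ) * 4 ^ c'
            ≤ 2 ^ g := by exact_mod_cast h3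
        rw [div_pow, div_pow, one_pow, one_pow, mul_one_div, div_le_div_iff₀ (by positivity)
          (by positivity)]
        linarith }
  have : NeZero q := ⟨hq0.ne'⟩
  have : NeZero D := ⟨by omega⟩
  have hε0 : (0 : ℝ) ≤ 2 * (s * s + 1) * (1 / 4) ^ c' := by positivity
  have BL : ∀ F : Finset X → Prop, ASize s F →
      (nc (fun x : (Fin d → Fin V → Fin D) × (Fin g → Fin ρ → X → Fin q) =>
        F (Yp H x.1) ∧ ¬ F (Neg x.2)) : ℝ) ≤
        Fintype.card (Fin d → Fin V → Fin D) *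
          nc (fun w : Fin g → Fin ρ → X → Fin q => F (Neg w)) +
        (2 * (s * s + 1) * (1 / 4) ^ c') *
          (Fintype.card (Fin d → Fin V → Fin D) * Fintype.card (Fin g → Fin ρ → X → Fin q)) :=
    fun F hF => block_bound hApp hpos16 (fun S => neg_contains_ge hq hq0 S) hF
  -- the negative inputs are mostly rejected
  have hW : cnt (fun W : Fin g → Fin ρ → Z → Fin q =>
      ∃ (α : Fin d → Fin V → Fin (p * D)) (c : Fin m → Fin P), Yt H α c ⊆ Neg W) ≤
      1 / 2 * (Fintype.card (Fin g → Fin ρ → Z → Fin q) : ℝ) := by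
    have e1 : cnt (fun W : Fin g → Fin ρ → Z → Fin q =>
        ∃ (α : Fin d → Fin V → Fin (p * D)) (c : Fin m → Fin P), Yt H α c ⊆ Neg W) ≤
        cnt (fun W : Fin g → Fin ρ → Z → Fin q =>
          ∃ x ∈ (univ : Finset ((Fin d → Fin V → Fin (p * D)) × (Fin m → Fin P))),
            Yt H x.1 x.2 ⊆ Neg W) := by
      apply H13.cnt_mono
      rintro W ⟨α, c, hα⟩
      exact ⟨(α, c), Finset.mem_univ _, hα⟩
    refine e1.trans ((H13.cnt_exists _ _).trans ?_)
    have h2 : ∀ x ∈ (univ : Finset ((Fin d → Fin V → Fin (p * D)) × (Fin m → Fin P))),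
        cnt (fun w : Fin g → Fin ρ → Z → Fin q => Yt H x.1 x.2 ⊆ Neg w) ≤
          (1 / 2) ^ M * (Fintype.card (Fin g → Fin ρ → Z → Fin q) : ℝ) := by
      intro x _
      have := H13.neg_contains (g := g) (ρ := ρ) (q := q) hq hq0 (Yt H x.1 x.2)
      rw [card_Yt] at this
      exact cnt_le_inst _ _ _ _ this
    refine (Finset.sum_le_sum h2).trans ?_
    rw [Finset.sum_const, nsmul_eq_mul, Finset.card_univ, ← mul_assoc]
    apply mul_le_mul_of_nonneg_right _ (by positivity)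
    have h3 : (Fintype.card ((Fin d → Fin V → Fin (p * D)) × (Fin m → Fin P)) : ℝ) =
        (((p * D) ^ (d * V) * P ^ m : ℕ) : ℝ) := by
      simp only [Fintype.card_fun, Fintype.card_fin, Fintype.card_prod]
      rw [← pow_mul, mul_comm V d]
    rw [h3, div_pow, one_pow, mul_one_div, div_le_div_iff₀ (by positivity) (by norm_num)]
    have h4 : ((2 * ((p * D) ^ (d * V) * P ^ m) : ℕ) : ℝ) ≤ ((2 ^ M : ℕ) : ℝ) := by
      exact_mod_cast hM
    rw [Nat.cast_mul, Nat.cast_pow 2] at h4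
    rw [Nat.cast_ofNat] at h4
    linarith
  -- the chain
  let e : Fin (p ^ d * P ^ m) ≃ Lab d m p P :=
    finProdFinEquiv.symm.trans (Equiv.prodCongr finFunctionFinEquiv.symm
      finFunctionFinEquiv.symm)
  refine few_core (J := p ^ d * P ^ m) (φ := (blockE e : Fin (p ^ d * P ^ m) → X ↪ Z))
    (N := fun w : Fin g → Fin ρ → X → Fin q => Neg w)
    (Y := fun α : Fin d → Fin V → Fin D => Yp H α) hε0 he BL T
    (fun t y => ¬ Mt t (G y)) (fun t ht => (hMt t ht).compl G hat)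
    (fun y => Satisfiable (G y))
    (fun x y hxy => hf _ _ fun t ht => not_iff_not.1 (hxy t ht))
    (fun x => ∃ (α : Fin d → Fin V → Fin (p * D)) (c : Fin m → Fin P), Yt H α c ⊆ x)
    (fun x y hxy ⟨α, c, hα⟩ => ⟨α, c, hα.trans hxy⟩)
    (fun x hx hsat => hx ((hHW x).1 hsat))
    (fun j α B => (hHW _).2 (by
      obtain ⟨α', c, hα'⟩ := map_Yp e H α j
      refine ⟨α', c, ?_⟩
      rw [← hα']
      exact Finset.subset_union_right)) ?_
  refine transport _ _ (gatherE (M := M) (d := d) (m := m) (p := p) (P := P) (D := D) (g := g)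
        (ρ := ρ) (q := q) e) _ _ (fun ω => ?_) hW
  rw [← neg_gather e ω]

end Pool.Agent.H25.NA
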