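import Pool.Agent.H25.NS.Main
import Pool.Agent.H25.NA.Final
import Pool.Agent.H25.NA.Params

/-!
Circuits with few arbitrary gates that decide satisfiability of formulas of bounded width.
-/

namespace Pool.Agent.H25.NA

open H13 (Clause Satisfiable)
open Pool.Agent.H25.NS (Circuit)

theorem main (k d : ℕ) (hd : 3 ≤ d) (hdk : d ≤ k) (ν E : ℝ) (hν0 : 0 < ν) (hνd : ν ≤ d)
    (hE : E < ν / d * (1 - 1 / (d : ℝ))) :
    ∃ n₀ : ℕ, ∀ n ≥ n₀, ∀ s r t : ℕ, ((t : ℝ) + 1) * 2 ^ r ≤ (n : ℝ) ^ ((k : ℝ) - ν) →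
      ∀ (C : Circuit (Clause n k) s r t) (out : Fin s),
        ((∀ F, C.fn out F ↔ Satisfiable F) ∨ (∀ F, C.fn out F ↔ ¬ Satisfiable F)) →
        (2 : ℝ) ^ ((n : ℝ) ^ E) < s := by
  obtain ⟨m, rfl⟩ := Nat.exists_eq_add_of_le hdk
  set k : ℕ := d + m with hk
  have hd3 : (3 : ℝ) ≤ d := by exact_mod_cast hd
  have hd0 : (0 : ℝ) < d := by linarith
  have hd1 : (0 : ℝ) < (d : ℝ) - 1 := by linarith
  have hkR : (k : ℝ) = d + m := by
    rw [hk]
    push_cast
    ring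
  have hm0 : (0 : ℝ) ≤ m := by positivity
  have hk0 : (0 : ℝ) < k := by
    rw [hkR]
    linarith
  have hk1R : (1 : ℝ) ≤ k := by
    rw [hkR]
    linarith
  set B : ℝ := ν / d * (1 - 1 / (d : ℝ)) with hB
  have h1d : 0 < 1 - 1 / (d : ℝ) := by
    have : 1 / (d : ℝ) < 1 := by
      rw [div_lt_one hd0]
      linarith
    linarith
  have h1d' : 1 - 1 / (d : ℝ) ≤ 1 := by
    have : 0 ≤ 1 / (d : ℝ) := by positivity
    linarith
  have hνd1 : ν / d ≤ 1 := by
    rw [div_le_one hd0]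
    exact hνd
  have hνd0 : 0 < ν / d := by positivity
  have hB0 : 0 < B := mul_pos hνd0 h1d
  have hB1 : B ≤ 1 := by
    rw [hB]
    exact mul_le_one₀ hνd1 (by linarith) h1d'
  -- exponents
  set E₂ : ℝ := max E (B / 2) with hE₂
  have hE₂0 : 0 < E₂ := lt_of_lt_of_le (by positivity) (le_max_right _ _)
  have hEE₂ : E ≤ E₂ := le_max_left _ _
  have hE₂B : E₂ < B := max_lt hE (by linarith)
  set E₁ : ℝ := (E₂ + B) / 2 with hE₁
  have hE₁0 : 0 < E₁ := by
    rw [hE₁]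
    positivity
  have hE₂₁ : E₂ < E₁ := by
    rw [hE₁]
    linarith
  have hE₁B : E₁ < B := by
    rw [hE₁]
    linarith
  have hE₁1 : E₁ ≤ 1 := hE₁B.le.trans hB1
  have hgap : E₁ * (d / ((d : ℝ) - 1)) < ν / d := by
    have h1 : B * (d / ((d : ℝ) - 1)) = ν / d := by
      rw [hB]
      field_simp
    have h2 : E₁ * (d / ((d : ℝ) - 1)) < B * (d / ((d : ℝ) - 1)) :=
      mul_lt_mul_of_pos_right hE₁B (by positivity)
    rwa [h1] at h2
  set γ : ℝ := (ν / d - E₁ * (d / ((d : ℝ) - 1))) / 3 with hγ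
  have hγ0 : 0 < γ := by
    rw [hγ]
    linarith
  set τ : ℝ := 1 - ν / d + γ with hτ
  have hτ0 : 0 ≤ τ := by
    rw [hτ]
    linarith
  obtain ⟨β, a, hβ3, ha, hβa⟩ := Pool.Agent.H25.NS.exists_beta d hd hE₁0 hE₁1 hγ0
  have hτE : τ + E₁ * (1 + (β : ℝ) / a) < 1 := by
    have h3 : 3 * γ = ν / d - E₁ * (d / ((d : ℝ) - 1)) := by
      rw [hγ]
      ring
    rw [hτ]
    linarith
  have hτ1 : τ ≤ 1 := by
    have : 0 ≤ E₁ * (1 + (β : ℝ) / a) := by positivity
    linarith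
  obtain ⟨n1, hn1⟩ := apex_params d k β a hd hdk hβ3 ha E₁ τ hE₁0 hτ0 hτE
  obtain ⟨n2, hn2⟩ := H13.asymP 8 (E₁ - E₂) 0 (by linarith)
  obtain ⟨n3, hn3⟩ := H13.asymP k E₂ 1 hE₂0
  set Cc : ℝ := 4 ^ d * (16 * k) ^ m with hCc
  have hCc1 : 1 ≤ Cc := by
    rw [hCc]
    refine one_le_mul_of_one_le_of_one_le (one_le_pow₀ (by norm_num)) (one_le_pow₀ (by linarith))
  obtain ⟨n4, hn4⟩ := H13.asymP (Cc * (12 * k + 7)) (d * γ) 1 (by positivity)
  refine ⟨max (max (2 * n1 + 2) n2) (max (max n3 n4) (16 * k + 4)), fun n hn s r t hr C out hC => ?_⟩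
  have hnn : 2 * n1 + 2 ≤ n := (le_max_left _ _).trans ((le_max_left _ _).trans hn)
  have hn1' := hn1 (n / 2) (by omega)
  have hn2' := hn2 n ((le_max_right _ _).trans ((le_max_left _ _).trans hn))
  have hn3' := hn3 n ((le_max_left _ _).trans ((le_max_left _ _).trans
    ((le_max_right _ _).trans hn)))
  have hn4' := hn4 n ((le_max_right _ _).trans ((le_max_left _ _).trans
    ((le_max_right _ _).trans hn)))
  have hn5 : 16 * k + 4 ≤ n := (le_max_right _ _).trans ((le_max_right _ _).trans hn)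
  obtain ⟨c', V, D, M, g, ρ, p, hc2, hcE, hp1, hpτ, hpn, hV, hD, hN, hH, hρ1, hρ, hg, hR, hG, hM,
    hvars⟩ := hn1'
  have hn5R : 16 * (k : ℝ) + 4 ≤ n := by exact_mod_cast hn5
  have hn0 : (0 : ℝ) < n := by linarith
  have hnn1 : (1 : ℝ) ≤ n := by linarith
  have hlog : 0 ≤ Real.log n := Real.log_nonneg hnn1
  rw [pow_zero, mul_one] at hn2'
  rw [pow_one] at hn3' hn4'
  -- half of n
  have hhalf : (n : ℝ) / 4 ≤ ((n / 2 : ℕ) : ℝ) := by
    have h1 : n ≤ 4 * (n / 2) := by omega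
    have h2 : (n : ℝ) ≤ 4 * ((n / 2 : ℕ) : ℝ) := by exact_mod_cast h1
    linarith
  have hhalf' : ∀ x : ℝ, 0 ≤ x → x ≤ 1 → (n : ℝ) ^ x / 4 ≤ ((n / 2 : ℕ) : ℝ) ^ x := by
    intro x hx0 hx1
    have h1 : ((n : ℝ) / 4) ^ x ≤ ((n / 2 : ℕ) : ℝ) ^ x :=
      Real.rpow_le_rpow (by positivity) hhalf hx0
    refine le_trans ?_ h1
    rw [Real.div_rpow hn0.le (by norm_num)]
    refine div_le_div_of_nonneg_left (by positivity) (by positivity) ?_
    calc (4 : ℝ) ^ x ≤ (4 : ℝ) ^ (1 : ℝ) := Real.rpow_le_rpow_of_exponent_le (by norm_num) hx1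
      _ = 4 := Real.rpow_one _
  -- the selectors
  set P : ℕ := n / (8 * k) with hP
  have hk8 : 0 < 8 * k := by omega
  have hPn : 8 * k * P ≤ n := Nat.mul_div_le n (8 * k)
  have hPhalf : P ≤ n / 2 := by
    rw [hP]
    exact Nat.div_le_div_left (by omega) (by norm_num)
  have hPge : (n : ℝ) / (16 * k) ≤ P := by
    have h1 : n < 8 * k * (P + 1) := by
      have := Nat.lt_mul_div_succ n hk8
      exact this
    have h2 : 1 ≤ P := by
      rw [hP]
      exact (Nat.one_le_div_iff hk8).2 (by omega)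
    have h3 : n ≤ 16 * k * P := by
      have : 8 * k * (P + 1) ≤ 16 * k * P := by nlinarith
      omega
    have h4 : (n : ℝ) ≤ 16 * k * P := by exact_mod_cast h3
    rw [div_le_iff₀ (by positivity)]
    linarith
  have hPvars : d * V * (2 * (p * D) + 1) + m * (2 * P + 1) ≤ n := by
    have h1 : m * (2 * P + 1) ≤ n / 2 := by
      rw [Nat.le_div_iff_mul_le (by norm_num)]
      have hmk : m ≤ k := by omega
      have h2 : m * (2 * P + 1) * 2 ≤ k * (2 * P + 1) * 2 := by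
        apply Nat.mul_le_mul_right
        exact Nat.mul_le_mul_right _ hmk
      have h3 : k * (2 * P + 1) * 2 = (8 * k * P) / 2 + 2 * k := by
        have : 8 * k * P = 2 * (4 * k * P) := by ring
        rw [this, Nat.mul_div_cancel_left _ (by norm_num)]
        ring
      omega
    omega
  have hM' : 2 * ((p * D) ^ (d * V) * P ^ m) ≤ 2 ^ M := by
    have h1 : P ^ m ≤ (n / 2) ^ (k - d) := by
      have : k - d = m := by omega
      rw [this]
      exact Nat.pow_le_pow_left hPhalf m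
    calc 2 * ((p * D) ^ (d * V) * P ^ m) = 2 * (p * D) ^ (d * V) * P ^ m := by ring
      _ ≤ 2 * (p * D) ^ (d * V) * (n / 2) ^ (k - d) := Nat.mul_le_mul_left _ h1
      _ ≤ 2 ^ M := hM
  by_contra hcon
  push Not at hcon
  -- the error
  set z : ℝ := (n : ℝ) ^ E with hz
  set y : ℝ := ((n / 2 : ℕ) : ℝ) ^ E₁ with hy
  have hzy : z + k * Real.log n ≤ y := by
    have h1 : z ≤ (n : ℝ) ^ E₂ := Real.rpow_le_rpow_of_exponent_le hnn1 hEE₂
    have h2 : (n : ℝ) ^ E₁ = (n : ℝ) ^ (E₁ - E₂) * (n : ℝ) ^ E₂ := by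
      rw [← Real.rpow_add hn0]
      congr 1
      ring
    have h3 : 8 * (n : ℝ) ^ E₂ ≤ (n : ℝ) ^ E₁ := by
      rw [h2]
      exact mul_le_mul_of_nonneg_right hn2' (by positivity)
    have h4 : (k : ℝ) * Real.log n ≤ k * (Real.log n + 3) :=
      mul_le_mul_of_nonneg_left (by linarith) hk0.le
    have h5 : (n : ℝ) ^ E₁ / 4 ≤ y := hhalf' E₁ hE₁0.le hE₁1
    linarith
  have hs2 : ((s : ℝ) * s) ≤ 4 ^ z := by
    have h1 : (4 : ℝ) ^ z = 2 ^ z * 2 ^ z := by
      rw [← Real.mul_rpow (by norm_num) (by norm_num)]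
      norm_num
    rw [h1]
    exact mul_le_mul hcon hcon (by positivity) (by positivity)
  have hc' : (1 / 4 : ℝ) ^ c' ≤ (4 : ℝ) ^ (-(y + 1)) := by
    have h1 : (1 / 4 : ℝ) ^ c' = (4 : ℝ) ^ (-(c' : ℝ)) := by
      rw [Real.rpow_neg (by norm_num), Real.rpow_natCast, one_div, inv_pow]
    rw [h1]
    refine Real.rpow_le_rpow_of_exponent_le (by norm_num) ?_
    have h2 : ((c' - 1 : ℕ) : ℝ) = (c' : ℝ) - 1 := by
      rw [Nat.cast_sub (by omega)]
      norm_num
    rw [h2] at hcE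
    linarith
  have hz1 : (1 : ℝ) ≤ 4 ^ z := by
    have : 0 ≤ z := by
      rw [hz]
      positivity
    exact Real.one_le_rpow (by norm_num) this
  have hJn : ((p ^ d * P ^ m : ℕ) : ℝ) ≤ (n : ℝ) ^ k := by
    have h1 : p ≤ n := hpn.trans (Nat.div_le_self _ _)
    have h2 : P ≤ n := hPhalf.trans (Nat.div_le_self _ _)
    have h3 : p ^ d * P ^ m ≤ n ^ k := by
      rw [hk, pow_add]
      exact Nat.mul_le_mul (Nat.pow_le_pow_left h1 _) (Nat.pow_le_pow_left h2 _)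
    exact_mod_cast h3
  have hnk : ((p ^ d * P ^ m : ℕ) : ℝ) ≤ (4 : ℝ) ^ (y - z) := by
    refine hJn.trans ?_
    have h2 : (n : ℝ) ^ k = Real.exp (k * Real.log n) := by
      rw [← Real.log_pow, Real.exp_log (by positivity)]
    rw [h2, Real.rpow_def_of_pos (by norm_num)]
    refine Real.exp_le_exp.2 ?_
    have h3 : (1 : ℝ) ≤ Real.log 4 := by
      have h4 : Real.log 4 = 2 * Real.log 2 := by
        have : (4 : ℝ) = 2 ^ 2 := by norm_num
        rw [this, Real.log_pow]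
        norm_num
      have := Real.log_two_gt_d9
      rw [h4]
      linarith
    have h5 : 0 ≤ y - z := by
      have : 0 ≤ (k : ℝ) * Real.log n := by positivity
      linarith
    calc (k : ℝ) * Real.log n ≤ 1 * (y - z) := by linarith
      _ ≤ Real.log 4 * (y - z) := mul_le_mul_of_nonneg_right h3 h5
  have he : ((p ^ d * P ^ m : ℕ) : ℝ) * (2 * (s * s + 1) * (1 / 4) ^ c') ≤ 1 := by
    calc ((p ^ d * P ^ m : ℕ) : ℝ) * (2 * (s * s + 1) * (1 / 4) ^ c')
        ≤ (4 : ℝ) ^ (y - z) * (2 * (4 ^ z + 4 ^ z) * (4 : ℝ) ^ (-(y + 1))) := by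
          refine mul_le_mul hnk ?_ (by positivity) (by positivity)
          refine mul_le_mul ?_ hc' (by positivity) (by positivity)
          linarith
      _ = 4 * ((4 : ℝ) ^ (y - z) * 4 ^ z * (4 : ℝ) ^ (-(y + 1))) := by ring
      _ = 1 := by
          rw [← Real.rpow_add (by norm_num), ← Real.rpow_add (by norm_num)]
          have : y - z + z + -(y + 1) = -1 := by ring
          rw [this, Real.rpow_neg_one]
          norm_num
  -- the family
  obtain ⟨T, Mt, hTc, hMt, hsep⟩ := C.exists_monotone_family out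
  have hf : ∀ x y, (∀ t ∈ T, Mt t x ↔ Mt t y) → (Satisfiable x ↔ Satisfiable y) := by
    intro x y hxy
    have h1 := hsep x y hxy
    rcases hC with hC | hC
    · rw [hC, hC] at h1
      exact h1
    · rw [hC, hC] at h1
      exact not_iff_not.1 h1
  have hfin := apex_explicit hd (le_of_eq hk.symm) hβ3 ha hc2 hV hD hN hH hρ1 hρ hg hR hG hM'
    hPvars he T Mt hMt hf
  -- comparison
  have hr2 : (r : ℝ) ≤ 2 * k * Real.log n := by
    have ht0 : (0 : ℝ) ≤ t := by positivity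
    have e1 : (2 : ℝ) ^ r ≤ (n : ℝ) ^ (k : ℝ) := by
      calc (2 : ℝ) ^ r ≤ ((t : ℝ) + 1) * 2 ^ r :=
            le_mul_of_one_le_left (by positivity) (by linarith)
        _ ≤ (n : ℝ) ^ ((k : ℝ) - ν) := hr
        _ ≤ (n : ℝ) ^ (k : ℝ) := Real.rpow_le_rpow_of_exponent_le hnn1 (by linarith)
    have e2 := Real.log_le_log (by positivity) e1
    rw [Real.log_pow, Real.log_rpow hn0] at e2
    have e3 : (1 / 2 : ℝ) ≤ Real.log 2 := by
      have := Real.log_two_gt_d9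
      linarith
    have e4 : (r : ℝ) * (1 / 2) ≤ r * Real.log 2 := mul_le_mul_of_nonneg_left e3 (by positivity)
    linarith
  have hTR : (T.card : ℝ) ≤ (n : ℝ) ^ ((k : ℝ) - ν) * (2 * k * Real.log n + 1) := by
    have e1 : (T.card : ℝ) ≤ 2 ^ r * (r * t + 1) := by exact_mod_cast hTc
    have e2 : (r : ℝ) * t + 1 ≤ (t + 1) * (r + 1) := by
      have h1 : (0 : ℝ) ≤ r := by positivity
      have h2 : (0 : ℝ) ≤ t := by positivity
      linarith
    calc (T.card : ℝ) ≤ 2 ^ r * (r * t + 1) := e1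
      _ ≤ 2 ^ r * ((t + 1) * (r + 1)) := mul_le_mul_of_nonneg_left e2 (by positivity)
      _ = (((t : ℝ) + 1) * 2 ^ r) * (r + 1) := by ring
      _ ≤ (n : ℝ) ^ ((k : ℝ) - ν) * (2 * k * Real.log n + 1) := by
          refine mul_le_mul hr (by linarith) (by positivity) (by positivity)
  have hlow : (n : ℝ) ^ ((k : ℝ) - ν) * (n : ℝ) ^ (d * γ) ≤
      Cc * ((p ^ d * P ^ m : ℕ) : ℝ) := by
    have h1 : (n : ℝ) ^ ((k : ℝ) - ν) * (n : ℝ) ^ (d * γ) = ((n : ℝ) ^ τ) ^ d * (n : ℝ) ^ m := by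
      rw [← Real.rpow_add hn0, ← Real.rpow_natCast ((n : ℝ) ^ τ), ← Real.rpow_mul hn0.le,
        ← Real.rpow_natCast (n : ℝ) m, ← Real.rpow_add hn0]
      congr 1
      rw [hτ, hkR]
      field_simp
      ring
    have h2 : (n : ℝ) ^ τ ≤ 4 * p := by
      have := hhalf' τ hτ0 hτ1
      linarith
    have h3 : (n : ℝ) ≤ 16 * k * P := by
      rw [div_le_iff₀ (by positivity)] at hPge
      linarith
    rw [h1, hCc]
    push_cast
    calc ((n : ℝ) ^ τ) ^ d * (n : ℝ) ^ m ≤ (4 * p) ^ d * (16 * k * P) ^ m :=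
          mul_le_mul (pow_le_pow_left₀ (by positivity) h2 d)
            (pow_le_pow_left₀ (by positivity) h3 m) (by positivity) (by positivity)
      _ = 4 ^ d * (16 * k) ^ m * (p ^ d * P ^ m) := by
          rw [mul_pow, mul_pow]
          ring
  have hfinR : ((p ^ d * P ^ m : ℕ) : ℝ) ≤ 6 * T.card := by exact_mod_cast hfin
  have hCc0 : 0 ≤ Cc := by linarith
  have hpow0 : 0 < (n : ℝ) ^ ((k : ℝ) - ν) := by positivity
  have hlast : (n : ℝ) ^ ((k : ℝ) - ν) * (n : ℝ) ^ (d * γ) ≤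
      (n : ℝ) ^ ((k : ℝ) - ν) * (Cc * (6 * (2 * k * Real.log n + 1))) := by
    calc (n : ℝ) ^ ((k : ℝ) - ν) * (n : ℝ) ^ (d * γ) ≤ Cc * (6 * T.card) :=
          hlow.trans (mul_le_mul_of_nonneg_left hfinR hCc0)
      _ ≤ Cc * (6 * ((n : ℝ) ^ ((k : ℝ) - ν) * (2 * k * Real.log n + 1))) :=
          mul_le_mul_of_nonneg_left (by linarith) hCc0
      _ = _ := by ring
  have hlast' : (n : ℝ) ^ (d * γ) ≤ Cc * (6 * (2 * k * Real.log n + 1)) :=
    le_of_mul_le_mul_left hlast hpow0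
  have h8 : Cc * (6 * (2 * k * Real.log n + 1)) < Cc * (12 * k + 7) * (Real.log n + 3) := by
    have h9 : 0 ≤ (k : ℝ) * Real.log n := by positivity
    have h10 : 6 * (2 * (k : ℝ) * Real.log n + 1) < (12 * k + 7) * (Real.log n + 3) := by
      have : (12 * (k : ℝ) + 7) * (Real.log n + 3) = 12 * (k * Real.log n) + 7 * Real.log n +
        3 * (12 * k + 7) := by ring
      rw [this]
      linarith
    calc Cc * (6 * (2 * k * Real.log n + 1)) < Cc * ((12 * k + 7) * (Real.log n + 3)) :=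
          mul_lt_mul_of_pos_left h10 (by linarith)
      _ = _ := by ring
  linarith

end Pool.Agent.H25.NA
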